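import Pool.Agent.helper64.OT.SpecM

/-!
# Project OT, CRR: the cross ratio
-/

set_option autoImplicit false

namespace Pool.Agent.OT

open Finset

theorem CRR_conj {p : ℕ} [Fact p.Prime] (χ : MulChar (ZMod p) ℂ) (y : ZMod p) :
    (starRingEnd ℂ) (χ y) = χ y⁻¹ := by
  rw [← MulChar.inv_apply']
  exact MulChar.star_apply' χ y

/-- the norm of a value at a nonzero element -/
theorem CRR_norm {p : ℕ} [Fact p.Prime] (χ : MulChar (ZMod p) ℂ) (y : ZMod p) (hy : y ≠ 0) : ‖χ y‖ = 1 := by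
  have h1 : χ y * (starRingEnd ℂ) (χ y) = 1 := by
    rw [CRR_conj, ← map_mul, mul_inv_cancel₀ hy, map_one]
  rw [Complex.mul_conj] at h1
  have h2 : Complex.normSq (χ y) = 1 := by exact_mod_cast h1
  rw [Complex.normSq_eq_norm_sq] at h2
  have h3 : (0 : ℝ) ≤ ‖χ y‖ := norm_nonneg _
  nlinarith

theorem CRR_alg1 {F : Type*} [Field F] (x₁ x₂ x₃ x₄ c : F) (h12 : x₁ ≠ x₂) (h14 : x₁ ≠ x₄)
    (h23 : x₂ ≠ x₃) (h24 : x₂ ≠ x₄) (hc : c + x₂ ≠ 0) :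
    ((x₂ - x₄) / (x₁ - x₄) * (c + x₁) / (c + x₂)) *
      ((x₂ - x₄) / (x₁ - x₄) * (c + x₁) / (c + x₂) - (x₁ - x₃) * (x₂ - x₄) / ((x₁ - x₄) * (x₂ - x₃))) *
      ((x₂ - x₄) / (x₁ - x₄) * (c + x₁) / (c + x₂) - 1)⁻¹ =
    ((x₂ - x₄) / (x₁ - x₄) * (x₂ - x₄) / (x₂ - x₃)) *
      ((c + x₁) * (c + x₃) * ((c + x₂)⁻¹ * (c + x₄)⁻¹)) := by
  have e12 : x₂ - x₁ ≠ 0 := sub_ne_zero.2 h12.symm
  have e14 : x₁ - x₄ ≠ 0 := sub_ne_zero.2 h14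
  have e23 : x₂ - x₃ ≠ 0 := sub_ne_zero.2 h23
  have e24 : x₂ - x₄ ≠ 0 := sub_ne_zero.2 h24
  have h1 : (x₂ - x₄) / (x₁ - x₄) * (c + x₁) / (c + x₂) - 1 =
      ((x₂ - x₁) / ((x₁ - x₄) * (c + x₂))) * (c + x₄) := by
    field_simp
    ring
  have h2 : (x₂ - x₄) / (x₁ - x₄) * (c + x₁) / (c + x₂) - (x₁ - x₃) * (x₂ - x₄) / ((x₁ - x₄) * (x₂ - x₃)) =
      (x₂ - x₄) * (x₂ - x₁) * (c + x₃) / ((x₁ - x₄) * (x₂ - x₃) * (c + x₂)) := by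
    field_simp
    ring
  rw [h1, h2, mul_inv]
  generalize (c + x₄)⁻¹ = w
  field_simp

theorem CRR_alg2 {F : Type*} [Field F] (x₁ x₂ x₃ x₄ : F) (h12 : x₁ ≠ x₂) (h14 : x₁ ≠ x₄)
    (h23 : x₂ ≠ x₃) (h24 : x₂ ≠ x₄) :
    ((x₂ - x₄) / (x₁ - x₄)) *
      ((x₂ - x₄) / (x₁ - x₄) - (x₁ - x₃) * (x₂ - x₄) / ((x₁ - x₄) * (x₂ - x₃))) *
      ((x₂ - x₄) / (x₁ - x₄) - 1)⁻¹ =
    (x₂ - x₄) / (x₁ - x₄) * (x₂ - x₄) / (x₂ - x₃) := by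
  have e12 : x₂ - x₁ ≠ 0 := sub_ne_zero.2 h12.symm
  have e14 : x₁ - x₄ ≠ 0 := sub_ne_zero.2 h14
  have e23 : x₂ - x₃ ≠ 0 := sub_ne_zero.2 h23
  have e24 : x₂ - x₄ ≠ 0 := sub_ne_zero.2 h24
  have h1 : (x₂ - x₄) / (x₁ - x₄) - 1 = (x₂ - x₁) / (x₁ - x₄) := by
    field_simp
    ring
  have h2 : (x₂ - x₄) / (x₁ - x₄) - (x₁ - x₃) * (x₂ - x₄) / ((x₁ - x₄) * (x₂ - x₃)) =
      (x₂ - x₄) * (x₂ - x₁) / ((x₁ - x₄) * (x₂ - x₃)) := by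
    field_simp
    ring
  rw [h1, h2, inv_div]
  field_simp

theorem CRR_fwd {F : Type*} [Field F] (x₁ x₂ k c : F) (h12 : x₁ ≠ x₂) (hk : k ≠ 0) (hc : c ≠ -x₂) :
    k * (c + x₁) / (c + x₂) ≠ k ∧
      ((k * (c + x₁) / (c + x₂)) * x₂ - k * x₁) / (k - k * (c + x₁) / (c + x₂)) = c := by
  have hc' : c + x₂ ≠ 0 := fun h => hc (eq_neg_of_add_eq_zero_left h)
  have e12 : x₂ - x₁ ≠ 0 := sub_ne_zero.2 h12.symm
  have h1 : k - k * (c + x₁) / (c + x₂) = k * (x₂ - x₁) / (c + x₂) := by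
    field_simp
    ring
  have h2 : k - k * (c + x₁) / (c + x₂) ≠ 0 := by
    rw [h1]
    exact div_ne_zero (mul_ne_zero hk e12) hc'
  refine ⟨fun h => h2 (by rw [h, sub_self]), ?_⟩
  rw [div_eq_iff h2]
  field_simp
  ring

theorem CRR_bwd {F : Type*} [Field F] (x₁ x₂ k z : F) (h12 : x₁ ≠ x₂) (hk : k ≠ 0) (hz : z ≠ k) :
    (z * x₂ - k * x₁) / (k - z) ≠ -x₂ ∧
      k * ((z * x₂ - k * x₁) / (k - z) + x₁) / ((z * x₂ - k * x₁) / (k - z) + x₂) = z := by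
  have hz' : k - z ≠ 0 := sub_ne_zero.2 hz.symm
  have e12 : x₂ - x₁ ≠ 0 := sub_ne_zero.2 h12.symm
  have h1 : (z * x₂ - k * x₁) / (k - z) + x₂ = k * (x₂ - x₁) / (k - z) := by
    field_simp
    ring
  have h2 : (z * x₂ - k * x₁) / (k - z) + x₂ ≠ 0 := by
    rw [h1]
    exact div_ne_zero (mul_ne_zero hk e12) hz'
  refine ⟨fun h => h2 (by rw [h]; ring), ?_⟩
  rw [div_eq_iff h2]
  field_simp
  ring

theorem CRR_main {p : ℕ} [Fact p.Prime] (χ : MulChar (ZMod p) ℂ) (x₁ x₂ x₃ x₄ : ZMod p)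
    (h12 : x₁ ≠ x₂) (h14 : x₁ ≠ x₄) (h23 : x₂ ≠ x₃) (h24 : x₂ ≠ x₄) :
    ∑ z : ZMod p, χ z * χ (z - (x₁ - x₃) * (x₂ - x₄) / ((x₁ - x₄) * (x₂ - x₃))) *
        (starRingEnd ℂ) (χ (z - 1)) =
      χ ((x₂ - x₄) / (x₁ - x₄) * (x₂ - x₄) / (x₂ - x₃)) * CS χ x₁ x₂ x₃ x₄ := by
  have hk : (x₂ - x₄) / (x₁ - x₄) ≠ 0 := div_ne_zero (sub_ne_zero.2 h24) (sub_ne_zero.2 h14)
  have hG : ∀ z : ZMod p, χ z * χ (z - (x₁ - x₃) * (x₂ - x₄) / ((x₁ - x₄) * (x₂ - x₃))) *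
        (starRingEnd ℂ) (χ (z - 1)) =
      χ (z * (z - (x₁ - x₃) * (x₂ - x₄) / ((x₁ - x₄) * (x₂ - x₃))) * (z - 1)⁻¹) := by
    intro z
    rw [CRR_conj, map_mul, map_mul]
  simp only [hG]
  unfold CS
  rw [Fintype.sum_option, ← Finset.add_sum_erase Finset.univ _ (Finset.mem_univ ((x₂ - x₄) / (x₁ - x₄))),
    CRR_alg2 x₁ x₂ x₃ x₄ h12 h14 h23 h24,
    ← Finset.add_sum_erase Finset.univ (fun c : ZMod p => (ch χ (some c) x₁ * ch χ (some c) x₃) *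
      (starRingEnd ℂ) (ch χ (some c) x₂ * ch χ (some c) x₄)) (Finset.mem_univ (-x₂)), mul_add, mul_add]
  have h0 : ch χ (some (-x₂)) x₂ = 0 := by
    change χ (x₂ + -x₂) = 0
    rw [add_neg_cancel, MulChar.map_zero]
  have h1 : ch χ none x₁ * ch χ none x₃ * (starRingEnd ℂ) (ch χ none x₂ * ch χ none x₄) = 1 := by
    simp [ch]
  rw [h1, mul_one, h0, zero_mul, map_zero, mul_zero, mul_zero, zero_add, Finset.mul_sum]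
  congr 1
  symm
  refine Finset.sum_nbij' (fun c => (x₂ - x₄) / (x₁ - x₄) * (c + x₁) / (c + x₂))
    (fun z => (z * x₂ - (x₂ - x₄) / (x₁ - x₄) * x₁) / ((x₂ - x₄) / (x₁ - x₄) - z)) ?_ ?_ ?_ ?_ ?_
  · intro c hc
    rw [Finset.mem_erase] at hc ⊢
    exact ⟨(CRR_fwd x₁ x₂ _ c h12 hk hc.1).1, Finset.mem_univ _⟩
  · intro z hz
    rw [Finset.mem_erase] at hz ⊢
    exact ⟨(CRR_bwd x₁ x₂ _ z h12 hk hz.1).1, Finset.mem_univ _⟩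
  · intro c hc
    rw [Finset.mem_erase] at hc
    exact (CRR_fwd x₁ x₂ _ c h12 hk hc.1).2
  · intro z hz
    rw [Finset.mem_erase] at hz
    exact (CRR_bwd x₁ x₂ _ z h12 hk hz.1).2
  · intro c hc
    rw [Finset.mem_erase] at hc
    have hc' : c + x₂ ≠ 0 := fun h => hc.1 (eq_neg_of_add_eq_zero_left h)
    rw [CRR_alg1 x₁ x₂ x₃ x₄ c h12 h14 h23 h24 hc', map_mul χ]
    congr 1
    change χ (x₁ + c) * χ (x₃ + c) * (starRingEnd ℂ) (χ (x₂ + c) * χ (x₄ + c)) = _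
    rw [map_mul, CRR_conj, CRR_conj, ← map_mul, ← map_mul, ← map_mul, add_comm x₁, add_comm x₂, add_comm x₃,
      add_comm x₄]

theorem CRR : CRR_stmt := by
  intro p _ χ x₁ x₂ x₃ x₄ h12 _ h14 h23 h24 _
  unfold HH
  rw [CRR_main χ x₁ x₂ x₃ x₄ h12 h14 h23 h24, norm_mul, CRR_norm, one_mul]
  exact div_ne_zero (mul_ne_zero (div_ne_zero (sub_ne_zero.2 h24) (sub_ne_zero.2 h14)) (sub_ne_zero.2 h24))
    (sub_ne_zero.2 h23)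

end Pool.Agent.OT
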