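import Pool.Agent.helper64.OT.SpecW

/-!
# Project OT, RR1: the first coefficient of the resultant L-function
-/

set_option autoImplicit false

namespace Pool.Agent.OT

open Finset Polynomial Pool.Agent.helper82.Weil Pool.Agent.helper82.KL

theorem RR1 : RR1_stmt := by
  intro p _ χ f hf
  have h1 : cA (LR χ f) 1 = ∑ x : ZMod p, LR χ f (X - C x) := by
    unfold cA
    symm
    refine Finset.sum_bij (fun x _ => X - C x) ?_ ?_ ?_ ?_
    · intro x _
      rw [mem_Mon]
      exact ⟨monic_X_sub_C x, natDegree_X_sub_C x⟩
    · intro x _ y _ h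
      have := congrArg (eval 0) h
      simpa using this
    · intro g hg
      rw [mem_Mon] at hg
      refine ⟨- g.coeff 0, Finset.mem_univ _, ?_⟩
      have h1 := hg.1.as_sum
      rw [hg.2] at h1
      rw [h1]
      simp
    · intro x _
      rfl
  rw [h1, Finset.mul_sum]
  refine Finset.sum_congr rfl fun x _ => ?_
  unfold LR
  rw [natDegree_X_sub_C, resultant_X_sub_C_right _ _ _ le_rfl, map_mul]

end Pool.Agent.OT
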